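import Mathlib

set_option autoImplicit false

namespace Pool.Agent.Results.MP_e3bb54_nt.Yes

open Finset

set_option maxHeartbeats 300000

noncomputable def pr (i : ℕ × ℕ × ℕ) : ℕ := Nat.nth Nat.Prime (Encodable.encode i)

theorem pr_prime (i : ℕ × ℕ × ℕ) : (pr i).Prime := Nat.prime_nth_prime _

theorem pr_dvd {j : ℕ × ℕ × ℕ} {S : Finset (ℕ × ℕ × ℕ)} (h : pr j ∣ ∏ i ∈ S, pr i) : j ∈ S := by
  obtain ⟨i, hi, e⟩ := (pr_prime j).prime.exists_mem_finset_dvd h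
  rw [Encodable.encode_injective (Nat.nth_injective Nat.infinite_setOfPred_prime
    ((Nat.prime_dvd_prime_iff_eq (pr_prime j) (pr_prime i)).mp e))]
  exact hi

def L (k x y : ℕ) : Finset (ℕ × ℕ × ℕ) :=
  ({2} ×ˢ range k ×ˢ range (k ^ 2)).filter fun i => i.2.1 * x + i.2.2 = y

def S (k : ℕ) (e : ℕ × ℕ × ℕ) : Finset (ℕ × ℕ × ℕ) :=
  insert (0, e.1, e.2.1) (insert (1, e.2.2, e.1 * e.2.2 + e.2.1)
    ((L k e.2.2 (e.1 * e.2.2 + e.2.1)).erase (2, e.1, e.2.1)))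

theorem key {k a b x a1 b1 x1 a3 b3 x3 : ℕ} (h1 : a1 < k ∧ b1 < k ^ 2) (h3 : a3 < k ∧ b3 < k ^ 2)
    (n1 : (a1, b1, x1) ≠ (a, b, x)) (n3 : (a3, b3, x3) ≠ (a, b, x))
    (h : S k (a, b, x) ⊆ S k (a1, b1, x1) ∪ S k (a3, b3, x3)) : False := by
  have c : ∀ {x1 a3 b3 : ℕ}, a3 < k ∧ b3 < k ^ 2 → (a, b, x1) ≠ (a, b, x) →
      (a3, b3, x) ≠ (a, b, x) → a * x + b = a3 * x + b3 →
      S k (a, b, x) ⊆ S k (a, b, x1) ∪ S k (a3, b3, x) → False := by
    intro x1 a3 b3 h3 n1 n3 e h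
    have := @h (2, a3, b3) (by simp [S, L, h3, e] at n3 ⊢; tauto)
    simp [S, L] at this n1 n3
    have e1 : ((a3 : ℤ) - a) * (x1 - x) = 0 := by
      have a1 := congrArg (Nat.cast : ℕ → ℤ) this.2.2
      have a2 := congrArg (Nat.cast : ℕ → ℤ) e
      push_cast at a1 a2
      linear_combination a1 + a2
    rcases mul_eq_zero.mp e1 with d | d
    · have : a3 = a := by omega
      subst this
      exact n3 rfl (by omega)
    · omega
  have u := @h (0, a, b) (by simp [S])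
  have v := @h (1, x, a * x + b) (by simp [S])
  simp [S, L] at u v
  rcases u with ⟨rfl, rfl⟩ | ⟨rfl, rfl⟩ <;> rcases v with ⟨rfl, v⟩ | ⟨rfl, v⟩
  · exact n3 rfl
  · exact c h1 n3 n1 v (by rwa [union_comm])
  · exact c h3 n1 n3 v h
  · exact n1 rfl

theorem result : ∃ ε : ℝ, 0 < ε ∧ ∃ n0 : ℕ, ∀ n > n0, ∃ B : Finset ℝ, (∀ b ∈ B, 0 < b) ∧
    B.card = n ∧ ∃ A : Finset ℕ, (∀ a ∈ A, 0 < a ∧ ∃ b ∈ B, ∃ b' ∈ B, (a : ℝ) = b * b') ∧
      ∀ C : Finset ℕ, (∀ c ∈ C, 0 < c) → (C.card : ℝ) < (n : ℝ) ^ (1 + ε) →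
        ¬ ∀ a ∈ A, ∃ c ∈ C, ∃ c' ∈ C, a = c * c' := by
  refine ⟨1 / 6, by norm_num, 3 * 2000 ^ 3, fun n hn => ?_⟩
  obtain ⟨k, k1, k2⟩ : ∃ k, 3 * k ^ 3 ≤ n ∧ n < 3 * (k + 1) ^ 3 := by
    by_contra c
    push Not at c
    have : ∀ k, 3 * k ^ 3 ≤ n := fun k => by
      induction k with
      | zero => simp
      | succ k ih => exact c k ih
    have a := this (n + 1)
    have := Nat.le_self_pow (n := 3) (by norm_num) (n + 1)
    omega
  have k3 : 2000 ≤ k := by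
    by_contra c
    have : (k + 1) ^ 3 ≤ 2000 ^ 3 := by gcongr; omega
    omega
  have p0 : ∀ i, (0 : ℝ) < pr i := fun i => by exact_mod_cast (pr_prime i).pos
  let f : ℕ × ℕ → {x : ℝ // 0 < x} := fun u => ⟨pr (0, u) / pr (2, u), div_pos (p0 _) (p0 _)⟩
  let g : ℕ × ℕ → {x : ℝ // 0 < x} := fun v =>
    ⟨pr (1, v) * ∏ i ∈ L k v.1 v.2, (pr i : ℝ), mul_pos (p0 _) (prod_pos fun i _ => p0 i)⟩
  have : Infinite {x : ℝ // 0 < x} := (Set.Ioi_infinite (0 : ℝ)).to_subtype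
  obtain ⟨t, ht, tc⟩ := Infinite.exists_superset_card_eq ((range k ×ˢ range (k ^ 2)).image f ∪
    (range k ×ˢ range (2 * k ^ 2)).image g) n ((card_union_le _ _).trans
      ((add_le_add card_image_le card_image_le).trans (by
        simp only [card_product, card_range]; exact le_of_eq_of_le (by ring) k1)))
  obtain ⟨D, hD⟩ : ∃ D, D = range k ×ˢ range (k ^ 2) ×ˢ range k := ⟨_, rfl⟩
  have mD : ∀ e ∈ D, (e.1 < k ∧ e.2.1 < k ^ 2) ∧ e.2.2 < k := fun e he => by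
    simpa [hD, and_assoc] using he
  refine ⟨t.map (.subtype _), by simp; exact fun b h _ => h, by simpa, D.image fun e => ∏ i ∈ S k e, pr i,
    ?_, fun C _ hC H => ?_⟩
  · simp only [forall_mem_image]
    rintro ⟨a, b, x⟩ he
    obtain ⟨⟨m1, m2⟩, m3⟩ := mD _ he
    refine ⟨prod_pos fun i _ => (pr_prime i).pos, _, mem_map_of_mem _ (ht (mem_union_left _
      (mem_image_of_mem f (a := (a, b)) (by simp; exact ⟨m1, m2⟩)))), _, mem_map_of_mem _ (ht
      (mem_union_right _ (mem_image_of_mem g (a := (x, a * x + b)) (by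
        simp only [mem_product, mem_range] at *; exact ⟨m3, by nlinarith⟩)))), ?_⟩
    rw [S, prod_insert (by simp [L]), prod_insert (by simp [L])]
    simp only [f, g, Function.Embedding.subtype_apply]
    rw [← mul_prod_erase (L k x _) _ (a := (2, a, b)) (by simp [L]; exact ⟨m1, m2⟩)]
    have := (p0 (2, a, b)).ne'
    push_cast
    field_simp
  · have : ∀ e ∈ D, ∃ c ∈ C, (c ∣ ∏ i ∈ S k e, pr i) ∧
        ∀ e' ∈ D, (c ∣ ∏ i ∈ S k e', pr i) → e' = e := fun e he => by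
      obtain ⟨c, hc, c', hc', d⟩ := H _ (mem_image_of_mem _ he)
      by_contra z
      push Not at z
      obtain ⟨e1, m1, d1, n1⟩ := z c hc (d ▸ dvd_mul_right _ _)
      obtain ⟨e3, m3, d3, n3⟩ := z c' hc' (d ▸ dvd_mul_left _ _)
      refine key (mD _ m1).1 (mD _ m3).1 n1 n3 fun i hi => mem_union.mpr ?_
      exact ((pr_prime i).dvd_mul.mp ((dvd_prod_of_mem pr hi).trans
        (d ▸ mul_dvd_mul d1 d3))).imp pr_dvd pr_dvd
    choose! c c1 c2 c3 using this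
    have h1 := card_le_card_of_injOn c c1 fun e he e' he' d => (c3 e he e' he' (d ▸ c2 e' he')).symm
    rw [hD] at h1
    simp only [card_product, card_range] at h1
    have h2 : ((k * (k ^ 2 * k) : ℕ) : ℝ) < n ^ (1 + 1 / 6 : ℝ) := (Nat.cast_le.mpr h1).trans_lt hC
    have h3 := pow_lt_pow_left₀ h2 (by positivity) (n := 6) (by norm_num)
    rw [← Real.rpow_natCast ((n : ℝ) ^ _), ← Real.rpow_mul (by positivity),
      show (1 + 1 / 6 : ℝ) * (6 : ℕ) = (7 : ℕ) by norm_num, Real.rpow_natCast] at h3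
    have h4 : (k * (k ^ 2 * k)) ^ 6 < n ^ 7 := by exact_mod_cast h3
    have h5 : n ≤ 24 * k ^ 3 := k2.le.trans (by
      calc _ ≤ 3 * (2 * k) ^ 3 := by gcongr; omega
        _ = _ := by ring)
    have h6 : 24 ^ 7 ≤ k ^ 3 := le_trans (by norm_num) (Nat.pow_le_pow_left k3 3)
    refine h4.not_ge ((Nat.pow_le_pow_left h5 7).trans ?_)
    calc _ = 24 ^ 7 * k ^ 21 := by ring
      _ ≤ k ^ 3 * k ^ 21 := by gcongr
      _ = _ := by ring

end Pool.Agent.Results.MP_e3bb54_nt.Yes
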